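import Mathlib
import Pool.Agent.Q323.FM.Twist
import Pool.Agent.Q323.FM.Pairs
import Pool.Agent.TH841.FD.BM

/-!
# The Brauer-Manin obstruction for the 2-isogeny coverings of elliptic curves with full 2-torsion

Let `A`, `B` be integers with `A B (A - B) ≠ 0`, `E : y² = x (x - A) (x - B)`, and `b₁` a squarefree
divisor of `A B`. The curve of genus one `C : N² = b₁ M⁴ - (A + B) M² e² + (A B / b₁) e⁴` is a
covering of `E` of degree two. As `b₁ N² = (b₁ M² - A e²) (b₁ M² - B e²)`, the quaternion algebras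
`(b₁ M² - A e², q)`, `q` a nonzero integer, are elements of the Brauer group of `C`. We consider the
curves `C` with points everywhere locally, and among them those for which some adelic point is
orthogonal to these classes; all the others have an empty Brauer-Manin set, so they have no rational
point and the assertion of the problem holds for them. We show that only few of the curves `C` are
not of this kind: in the twist family of `E` by the values of an arbitrary nonzero polynomial `D(t)`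
all the moments of their number are bounded, and in the family of all coprime pairs (times a
constant `D`) the second moment is bounded, although the number of the curves `C` with points
everywhere locally tends to infinity for almost all the members of the families.
-/

set_option autoImplicit false

namespace Pool.Agent.Results.MP_308fa9_nt.BrauerManinMoments

open Finset Polynomial

/-- the curve `C : N² = b₁ M⁴ - (A + B) M² e² + (A B / b₁) e⁴` has a point over `K`, with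
`(M, e) ≠ (0, 0)` -/
def Solvable (K : Type) [Field K] (A B b₁ : ℤ) : Prop := ∃ N M e : K, (M ≠ 0 ∨ e ≠ 0) ∧
  N ^ 2 = (b₁ : K) * M ^ 4 + ((-(A + B) : ℤ) : K) * M ^ 2 * e ^ 2 +
    ((A * B / b₁ : ℤ) : K) * e ^ 4

/-- the squarefree `b₁ ∣ A B` for which `C` has points everywhere locally -/
def ELS (A B : ℤ) : Set ℤ := {b₁ | Squarefree b₁ ∧ b₁ ∣ A * B ∧ Solvable ℝ A B b₁ ∧
  ∀ (p : ℕ) [Fact p.Prime], Solvable ℚ_[p] A B b₁}

/-- A point over `K` of the curve `C : N² = b₁ M⁴ - (A + B) M² e² + (A B / b₁) e⁴` in a weighted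
projective plane. -/
structure Pt (K : Type) [Field K] (A B b₁ : ℤ) where
  /-- the first coordinate of weight one -/
  M : K
  /-- the second coordinate of weight one -/
  e : K
  /-- the coordinate of weight two -/
  N : K
  ne : M ≠ 0 ∨ e ≠ 0
  eq : N ^ 2 = (b₁ : K) * M ^ 4 + ((-(A + B) : ℤ) : K) * M ^ 2 * e ^ 2 +
    ((A * B / b₁ : ℤ) : K) * e ^ 4

open Classical in
/-- The value of `b₁ M² - A e²` at a point, modulo squares. As
`b₁ N² = (b₁ M² - A e²) (b₁ M² - B e²)`, it is computed from the other factor at a zero. -/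
noncomputable def value {K : Type} [Field K] {A B b₁ : ℤ} (P : Pt K A B b₁) : K :=
  if (b₁ : K) * P.M ^ 2 - (A : K) * P.e ^ 2 ≠ 0 then (b₁ : K) * P.M ^ 2 - (A : K) * P.e ^ 2
  else (b₁ : K) * ((b₁ : K) * P.M ^ 2 - (B : K) * P.e ^ 2)

/-- an adelic point of `C` -/
structure Adelic (A B b₁ : ℤ) where
  /-- the real component -/
  re : Pt ℝ A B b₁
  /-- the `p`-adic components -/
  pa : ∀ p : Nat.Primes, Pt ℚ_[(p : ℕ)] A B b₁

/-- The quaternion algebra `(a, b)` over `F` splits, that is, the Hilbert symbol `(a, b)` is `1`: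
the conic `z ^ 2 = a x ^ 2 + b y ^ 2` has a point over `F`. -/
def Splits {F : Type} [Field F] (a b : F) : Prop :=
  ∃ x y z : F, (x ≠ 0 ∨ y ≠ 0 ∨ z ≠ 0) ∧ z ^ 2 = a * x ^ 2 + b * y ^ 2

/-- The set of the places (`none` is the real one) at which the value of the class
`(b₁ M² - A e², q)` of the Brauer group of `C` at the adelic point is not trivial. -/
def Ram {A B b₁ : ℤ} (P : Adelic A B b₁) (q : ℤ) : Set (Option Nat.Primes) :=
  {v | match v with
    | none => ¬ Splits (value P.re) (q : ℝ)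
    | some p => ¬ Splits (value (P.pa p)) (q : ℚ_[(p : ℕ)])}

/-- the `b₁` in `ELS A B` such that some adelic point of `C` is orthogonal to the classes
`(b₁ M² - A e², q)`, where `q` is `-1`, `2` or `q = 1` modulo `4` and `|q|` is a prime: the number of
the places at which the value is not trivial is even -/
def Unobstructed (A B : ℤ) : Set ℤ := {b₁ | b₁ ∈ ELS A B ∧ ∃ P : Adelic A B b₁, ∀ q : ℤ,
  (q = -1 ∨ q = 2 ∨ (q.natAbs.Prime ∧ q % 4 = 1)) → Even (Ram P q).ncard}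

/-- the point of the library -/
def toPnt {K : Type} [Field K] {A B b₁ : ℤ} (P : Pt K A B b₁) :
    Pool.Agent.TH841.FD.Pnt A B b₁ K := ⟨P.M, P.e, P.N, P.ne, P.eq⟩

/-- the adelic point of the library -/
noncomputable def toAdel {A B b₁ : ℤ} (P : Adelic A B b₁) : Pool.Agent.TH841.FD.Adel A B b₁ :=
  ⟨toPnt P.re, fun p => toPnt (P.pa p)⟩

lemma ram_eq {A B b₁ : ℤ} (P : Adelic A B b₁) (q : ℤ) :
    Pool.Agent.W313.BMX.ram (Pool.Agent.TH841.FD.vals (toAdel P)) q = Ram P q := by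
  ext v
  cases v with
  | none => exact Iff.rfl
  | some p => exact Iff.rfl

lemma sub_lf {A B : ℤ} (hAB : A ≠ B) : Unobstructed A B ⊆ Pool.Agent.TH841.FD.LF A B := by
  rintro b₁ ⟨h1, P, h2⟩
  refine ⟨h1, ?_⟩
  refine Pool.Agent.TH841.FD.cov_of_orth h1.1.ne_zero hAB h1.2.1 (toAdel P) fun q hq => ?_
  rw [ram_eq]
  exact h2 q hq

lemma card_le {A B : ℤ} (hA : A ≠ 0) (hB : B ≠ 0) (hAB : A ≠ B) :
    ((Unobstructed A B).ncard : ℝ) ≤ ((Pool.Agent.TH841.FD.LF A B).ncard : ℝ) :=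
  Nat.cast_le.2 (Set.ncard_le_ncard (sub_lf hAB) (Pool.Agent.Q323.FM.lf_fin hA hB))

lemma ram_finite {A B b₁ : ℤ} (hAB : A ≠ B) (hb : b₁ ≠ 0) (hd : b₁ ∣ A * B)
    (P : Adelic A B b₁) {q : ℤ} (hq : q ≠ 0) : (Ram P q).Finite := by
  rw [← ram_eq]
  exact Pool.Agent.TH841.FD.ram_fin hb hAB hd (toAdel P) q hq

/-- `v` is a square modulo `f` in `ℚ[t]` -/
def SqMod (f v : ℤ[X]) : Prop := ∃ q : ℚ[X], f.map (Int.castRingHom ℚ) ∣
  (q ^ 2 - v.map (Int.castRingHom ℚ))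

open Classical in
/-- the number of the polynomials `g_i` modulo which `A B` is not a square -/
noncomputable def nonSq (A B : ℤ) {m : ℕ} (g : Fin m → ℤ[X]) : ℕ :=
  (univ.filter (fun i => ¬ SqMod (g i) (C A * C B))).card

open Classical in
/-- **Theorem.** (1) Let `A ≠ B` and let `b₁` be a nonzero divisor of `A B`. For every adelic point
of `C` and every integer `q ≠ 0` the number of the places in `Ram` is finite.
(2) Let `A`, `B`, `A - B` be nonzero integers and `D ≠ 0` a polynomial with integer coefficients.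
For all `s` and `L` there is `K` such that for all integers `M ≥ 1` and `|N| ≤ M ^ L` the sum of
`(#Unobstructed (A D(t)) (B D(t))) ^ s` over the `t` with `N < t ≤ N + M`, `D(t) ≠ 0` is at most
`K * M`.
(3) If moreover `D = c g₁ ⋯ g_m` with irreducible pairwise non-associated `g_i` of positive degree,
and `r` is the number of the `g_i` modulo which `A B` is not a square, then for all `ε, η > 0` and
`L` there is `M₀` such that for `M ≥ M₀` and `|N| ≤ M ^ L` the inequality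
`#ELS (A D(t)) (B D(t)) ≥ (log M) ^ ((r / 2) log 2 - η)` (and `D(t) ≠ 0`) holds for all the `t` with
`N < t ≤ N + M` with at most `ε M` exceptions.
(4) For every `L` there is `K` such that for all `D ≠ 0`, `X ≥ 1` and `|N₁|, |N₂| ≤ X ^ L` the sum
of `(#Unobstructed (D a) (D b)) ^ 2` over the coprime pairs `(a, b)` of integers
`N₁ < a ≤ N₁ + X`, `N₂ < b ≤ N₂ + X` with `a`, `b`, `a - b` nonzero is at most
`K * 128 ^ ω(D) * X ^ 2`.
(5) Let `D ≠ 0`. For all `δ, ε > 0` and `L` there are `K` and `X₀` such that for `X ≥ X₀` and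
`|N₁|, |N₂| ≤ X ^ L` all the coprime pairs `(a, b)` of integers `N₁ < a ≤ N₁ + X`,
`N₂ < b ≤ N₂ + X` with at most `ε X ^ 2` exceptions satisfy, for `A = D a` and `B = D b`:
`A`, `B`, `A - B` are nonzero, `#Unobstructed A B ≤ K`, and
`#ELS A B ≥ (log X) ^ ((3 / 2) log 2 - δ)`. -/
theorem result :
    (∀ A B b₁ : ℤ, A ≠ B → b₁ ≠ 0 → b₁ ∣ A * B → ∀ (P : Adelic A B b₁) (q : ℤ), q ≠ 0 →
      (Ram P q).Finite) ∧
    (∀ (A B : ℤ) (D : ℤ[X]), A ≠ 0 → B ≠ 0 → A ≠ B → D ≠ 0 →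
    (∀ s L : ℕ, ∃ K : ℝ, ∀ (N : ℤ) (M : ℕ), 1 ≤ M → |N| ≤ (M : ℤ) ^ L →
      ∑ t ∈ (Ioc N (N + (M : ℤ))).filter (fun t => D.eval t ≠ 0),
        ((Unobstructed (A * D.eval t) (B * D.eval t)).ncard : ℝ) ^ s ≤ K * M) ∧
    ∀ (m : ℕ) (c : ℤ) (g : Fin m → ℤ[X]), D = C c * ∏ i, g i →
      (∀ i, Irreducible (g i) ∧ 0 < (g i).natDegree) →
      (∀ i j, i ≠ j → ¬ Associated (g i) (g j)) →
      ∀ (ε η : ℝ) (L : ℕ), 0 < ε → 0 < η →
      ∃ M₀ : ℕ, ∀ (N : ℤ) (M : ℕ), M₀ ≤ M → |N| ≤ (M : ℤ) ^ L →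
        (((Ioc N (N + (M : ℤ))).filter (fun t => ¬ (D.eval t ≠ 0 ∧
          (Real.log M) ^ ((nonSq A B g : ℝ) / 2 * Real.log 2 - η) ≤
            ((ELS (A * D.eval t) (B * D.eval t)).ncard : ℝ)))).card : ℝ) ≤ ε * M) ∧
    (∀ L : ℕ, ∃ K : ℝ, ∀ (D N₁ N₂ : ℤ) (X : ℕ), D ≠ 0 → 1 ≤ X → |N₁| ≤ (X : ℤ) ^ L →
      |N₂| ≤ (X : ℤ) ^ L →
      ∑ t ∈ (Ioc N₁ (N₁ + (X : ℤ)) ×ˢ Ioc N₂ (N₂ + (X : ℤ))).filter (fun t : ℤ × ℤ =>
        IsCoprime t.1 t.2 ∧ t.1 ≠ 0 ∧ t.2 ≠ 0 ∧ t.1 ≠ t.2),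
        ((Unobstructed (D * t.1) (D * t.2)).ncard : ℝ) ^ 2 ≤
      K * 128 ^ D.natAbs.primeFactors.card * X ^ 2) ∧
    ∀ (D : ℤ) (_ : D ≠ 0) (δ ε : ℝ) (L : ℕ) (_ : 0 < δ) (_ : 0 < ε),
    ∃ K X₀ : ℕ, ∀ (N₁ N₂ : ℤ) (X : ℕ), X₀ ≤ X → |N₁| ≤ (X : ℤ) ^ L → |N₂| ≤ (X : ℤ) ^ L →
      (((Ioc N₁ (N₁ + (X : ℤ)) ×ˢ Ioc N₂ (N₂ + (X : ℤ))).filter (fun t : ℤ × ℤ =>
        IsCoprime t.1 t.2 ∧ ¬ ∀ A B : ℤ, A = D * t.1 → B = D * t.2 →
        A ≠ 0 ∧ B ≠ 0 ∧ A ≠ B ∧ (Unobstructed A B).ncard ≤ K ∧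
        (Real.log X) ^ (3 / 2 * Real.log 2 - δ) ≤ ((ELS A B).ncard : ℝ))).card : ℝ) ≤
        ε * X ^ 2 := by
  refine ⟨fun A B b₁ hAB hb hd P q hq => ram_finite hAB hb hd P hq, ?_, ?_, ?_⟩
  · intro A B D hA hB hAB hD
    refine ⟨fun s L => ?_, fun m c g hDg hg hgg ε η L hε hη =>
      Pool.Agent.Q323.FM.tw_els hA hB hAB hD hDg hg hgg ε η L hε hη⟩
    obtain ⟨K, hK⟩ := Pool.Agent.Q323.FM.tw_mom hA hB hAB hD s L
    refine ⟨K, fun N M hM hN => le_trans (sum_le_sum fun t ht => ?_) (hK N M hM hN)⟩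
    have hd := (mem_filter.1 ht).2
    exact pow_le_pow_left₀ (Nat.cast_nonneg _) (card_le (mul_ne_zero hA hd)
      (mul_ne_zero hB hd) fun h' => hAB (mul_right_cancel₀ hd h')) s
  · intro L
    obtain ⟨C, hC⟩ := Pool.Agent.Q323.FM.pairs_mom L
    refine ⟨C, fun D N₁ N₂ X hD hX h1 h2 => le_trans (sum_le_sum fun t ht => ?_)
      (hC D N₁ N₂ X hD hX h1 h2)⟩
    obtain ⟨k1, k2, k3, k4⟩ := (mem_filter.1 ht).2
    exact pow_le_pow_left₀ (Nat.cast_nonneg _) (card_le (mul_ne_zero hD k2)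
      (mul_ne_zero hD k3) fun h' => k4 (mul_left_cancel₀ hD h')) 2
  · intro D hD δ ε L hδ hε
    obtain ⟨K, X0, h⟩ := Pool.Agent.Q323.FM.pairs_ae2 D hD δ ε L hδ hε
    refine ⟨K, X0, fun N₁ N₂ X hX h1 h2 => le_trans (Nat.cast_le.2 (card_le_card fun t ht => ?_))
      (h N₁ N₂ X hX h1 h2)⟩
    obtain ⟨ht1, ht2, ht3⟩ := mem_filter.1 ht
    refine mem_filter.2 ⟨ht1, ht2, fun hall => ht3 fun A B hA hB => ?_⟩
    obtain ⟨c1, c2, c3, c4, c5⟩ := hall A B hA hB
    exact ⟨c1, c2, c3, (Set.ncard_le_ncard (sub_lf c3) (Pool.Agent.Q323.FM.lf_fin c1 c2)).trans c4,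
      c5⟩

end Pool.Agent.Results.MP_308fa9_nt.BrauerManinMoments
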