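import Mathlib
import Pool.Agent.Q284.FDQ.BM
import Pool.Agent.Y667.RP.Disc
import Pool.Agent.W672.FK.Lowf
import Pool.Agent.W307.RT.Tors

/-!
# The Brauer-Manin obstruction for the 2-isogeny coverings of a positive proportion of the curves with
full rational 2-torsion

All elliptic curves `E` over `ℚ` with full rational 2-torsion, ordered by the naive height or by the
absolute value of the minimal discriminant. For an equation `y² = x (x - A) (x - B)` of `E` and a
squarefree `b₁ ∣ A B` let `C_{b₁}` be the curve of genus one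
`N² = b₁ M⁴ - (A + B) M² e² + (A B / b₁) e⁴`, a covering of `E` of degree two. As
`b₁ N² = (b₁ M² - A e²) (b₁ M² - B e²)`, the quaternion algebras `(b₁ M² - A e², q)` and
`(b₁ M² - B e², q)`, `q` a nonzero integer, are elements of the Brauer group of `C_{b₁}`. For every `T`
the following holds for a positive proportion of the curves `E`: for ALL equations
`y² = x (x - A) (x - B)` of `E`, a curve `C_{b₁}` without rational points has an empty Brauer-Manin set,
no adelic point is orthogonal to these elements of the Brauer group (so the assertion of the problem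
holds for `C_{b₁}`); and for some equation at least `2 ^ T` of the curves `C_{b₁}` have adelic points
and no rational point.
-/

set_option autoImplicit false

namespace Pool.Agent.Results.MP_308fa9_nt.BrauerManinPositiveProportion

open Finset Filter Topology

/-- the curve `y² = x³ + A x + B` over `ℚ` -/
def E (A B : ℤ) : WeierstrassCurve ℚ := ⟨0, 0, 0, (A : ℚ), (B : ℚ)⟩

/-- the absolute value of the minimal discriminant of an elliptic curve `W` over `ℚ`: the smallest
absolute value of the discriminant of a Weierstrass equation `V` with integer coefficients which is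
isomorphic to `W` over `ℚ` -/
noncomputable def minDisc (W : WeierstrassCurve ℚ) : ℕ :=
  sInf {n : ℕ | ∃ (V : WeierstrassCurve ℤ) (C : WeierstrassCurve.VariableChange ℚ),
    C • W = V.map (Int.castRingHom ℚ) ∧ n = V.Δ.natAbs}

/-- the naive height of `y² = x³ + A x + B` is at most `Z` -/
def HeightLe (c : ℤ × ℤ) (Z : ℕ) : Prop := 4 * |c.1| ^ 3 ≤ Z ∧ 27 * c.2 ^ 2 ≤ Z

/-- the minimal discriminant of `y² = x³ + A x + B` is at most `Z` in absolute value -/
def DiscLe (c : ℤ × ℤ) (Z : ℕ) : Prop := minDisc (E c.1 c.2) ≤ Z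

/-- The pairs `(A, B)` of integers such that `4 A³ + 27 B² ≠ 0`, there is no prime `p` with
`p⁴ ∣ A` and `p⁶ ∣ B`, `Z/2 x Z/2` embeds in the group of the rational points of
`y² = x³ + A x + B`, and the size (`HeightLe` or `DiscLe`) is at most `Z`. Every elliptic curve over
`ℚ` with full rational 2-torsion is isomorphic to `E A B` for exactly one pair with the first three
properties. -/
def Fam (I : ℤ × ℤ → ℕ → Prop) (Z : ℕ) : Set (ℤ × ℤ) :=
  {c : ℤ × ℤ | 4 * c.1 ^ 3 + 27 * c.2 ^ 2 ≠ 0 ∧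
    (∀ p : ℕ, p.Prime → ¬ ((p : ℤ) ^ 4 ∣ c.1 ∧ (p : ℤ) ^ 6 ∣ c.2)) ∧
    (∃ f : ZMod 2 × ZMod 2 →+ (E c.1 c.2).toAffine.Point, Function.Injective f) ∧ I c Z}

/-- the proportion of the curves of `S` among the curves of size at most `Z` -/
noncomputable def proportion (I : ℤ × ℤ → ℕ → Prop) (S : Set (ℤ × ℤ)) (Z : ℕ) : ℝ :=
  ((Fam I Z ∩ S).ncard : ℝ) / (Fam I Z).ncard

lemma FamH_eq (H : ℕ) : Fam HeightLe H = (Pool.Agent.W307.RT.Cv 2 H : Set (ℤ × ℤ)) := by
  classical
  ext c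
  have h : Pool.Agent.W307.RT.HasT 2 (Pool.Agent.W307.RT.Sh c.1 c.2) ↔
    ∃ f : ZMod 2 × ZMod 2 →+ (E c.1 c.2).toAffine.Point, Function.Injective f :=
    Pool.Agent.W307.RT.tors_iff
  unfold Fam HeightLe Pool.Agent.W307.RT.Cv
  rw [Set.mem_ofPred_eq, mem_coe, mem_filter, h, mem_product, mem_Icc, mem_Icc]
  constructor
  · rintro ⟨h1, h2, h3, h4, h5⟩
    refine ⟨⟨?_, ?_⟩, h1, h4, h5, h2, h3⟩
    · rw [← abs_le]
      have h0 := abs_nonneg c.1
      rcases eq_or_lt_of_le h0 with h6 | h6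
      · rw [← h6]; positivity
      · have : 1 ≤ |c.1| := h6
        nlinarith [mul_nonneg h0 h0, mul_self_nonneg (|c.1| - 1)]
    · rw [← abs_le]
      have h0 := abs_nonneg c.2
      rw [← sq_abs] at h5
      rcases eq_or_lt_of_le h0 with h6 | h6
      · rw [← h6]; positivity
      · have : 1 ≤ |c.2| := h6
        nlinarith
  · rintro ⟨-, h1, h4, h5, h2, h3⟩
    exact ⟨h1, h2, h3, h4, h5⟩

lemma FamD_eq (D : ℕ) : Fam DiscLe D = (Pool.Agent.TH344.DS.Dv D : Set (ℤ × ℤ)) := by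
  classical
  have h0 : Fam DiscLe D = Pool.Agent.W307.RS.DvS 2 D := by
    ext c
    have h : Pool.Agent.W307.RT.HasT 2 (Pool.Agent.W307.RT.Sh c.1 c.2) ↔
        ∃ f : ZMod 2 × ZMod 2 →+ (E c.1 c.2).toAffine.Point, Function.Injective f :=
      Pool.Agent.W307.RT.tors_iff
    unfold Fam Pool.Agent.W307.RS.DvS
    rw [Set.mem_ofPred_eq, Set.mem_ofPred_eq, h]
    exact Iff.rfl
  rw [h0]
  unfold Pool.Agent.TH344.DS.Dv
  rw [dif_pos (Pool.Agent.TH344.DS.excd.1 D), Set.Finite.coe_toFinset]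

/-- The number of these curves tends to infinity (ordering by height). -/
lemma tendstoH : Tendsto (fun Z : ℕ => (Fam HeightLe Z).ncard) atTop atTop := by
  simp only [FamH_eq, Set.ncard_coe_finset]
  exact Pool.Agent.W307.RT.tendsto_of_low Pool.Agent.W672.FK.lowf

/-- The number of these curves tends to infinity (ordering by the minimal discriminant). -/
lemma tendstoD : Tendsto (fun Z : ℕ => (Fam DiscLe Z).ncard) atTop atTop := by
  have h1 := Pool.Agent.W307.RT.tendsto_of_low Pool.Agent.W672.FK.lowf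
  have h2 : Tendsto (fun D : ℕ => (Pool.Agent.W307.RT.Cv 2 (D / 32)).card) atTop atTop :=
    h1.comp (Nat.tendsto_div_const_atTop (by norm_num))
  obtain ⟨hD1, hD2, hD3⟩ := Pool.Agent.TH344.DS.excd
  refine tendsto_atTop_mono (fun D => ?_) h2
  have h3 : (Pool.Agent.TH344.DS.Dv D : Set (ℤ × ℤ)) = Pool.Agent.W307.RS.DvS 2 D := by
    unfold Pool.Agent.TH344.DS.Dv
    rw [dif_pos (hD1 D), Set.Finite.coe_toFinset]
  rw [FamD_eq, h3, ← Set.ncard_coe_finset]
  exact Set.ncard_le_ncard (Pool.Agent.W307.RS.Cv_sub Pool.Agent.W554.RS.mdl 2 (D / 32) D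
    (Nat.mul_div_le D 32)) (hD1 D)

/-- the curve `y² = x (x - A) (x - B)` over `ℚ` -/
def Leg (A B : ℤ) : WeierstrassCurve ℚ := ⟨0, ((-(A + B) : ℤ) : ℚ), 0, ((A * B : ℤ) : ℚ), 0⟩

/-- `y² = x (x - A) (x - B)` is an equation of the curve `y² = x³ + c.1 x + c.2` -/
def IsModel (c : ℤ × ℤ) (A B : ℤ) : Prop :=
  ∃ C : WeierstrassCurve.VariableChange ℚ, C • E c.1 c.2 = Leg A B

/-- A point over `K` of the curve `C_{b₁} : N² = b₁ M⁴ - (A + B) M² e² + (A B / b₁) e⁴` in a weighted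
projective plane. -/
structure Pt (K : Type) [Field K] (A B b₁ : ℤ) where
  /-- the coordinate of weight two -/
  N : K
  /-- the first coordinate of weight one -/
  M : K
  /-- the second coordinate of weight one -/
  e : K
  ne : M ≠ 0 ∨ e ≠ 0
  eq : N ^ 2 = (b₁ : K) * M ^ 4 + ((-(A + B) : ℤ) : K) * M ^ 2 * e ^ 2 +
    ((A * B / b₁ : ℤ) : K) * e ^ 4

open Classical in
/-- The value of `b₁ M² - R e²` at a point, modulo squares, `(R, S)` is `(A, B)` or `(B, A)`. As
`b₁ N² = (b₁ M² - R e²) (b₁ M² - S e²)`, it is computed from the other factor at a zero. -/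
noncomputable def value {K : Type} [Field K] {A B b₁ : ℤ} (P : Pt K A B b₁) (R S : ℤ) : K :=
  if (b₁ : K) * P.M ^ 2 - R * P.e ^ 2 ≠ 0 then (b₁ : K) * P.M ^ 2 - R * P.e ^ 2
  else b₁ * ((b₁ : K) * P.M ^ 2 - S * P.e ^ 2)

/-- an adelic point of `C_{b₁}` -/
structure Adelic (A B b₁ : ℤ) where
  /-- the real component -/
  re : Pt ℝ A B b₁
  /-- the `p`-adic components -/
  pa : ∀ p : Nat.Primes, Pt ℚ_[(p : ℕ)] A B b₁

/-- The quaternion algebra `(a, b)` over `F` splits, that is, the Hilbert symbol `(a, b)` is `1`: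
the conic `z ^ 2 = a x ^ 2 + b y ^ 2` has a point over `F`. -/
def Splits {F : Type} [Field F] (a b : F) : Prop :=
  ∃ x y z : F, (x ≠ 0 ∨ y ≠ 0 ∨ z ≠ 0) ∧ z ^ 2 = a * x ^ 2 + b * y ^ 2

/-- The set of the places (`none` is the real one) at which the value of the class
`(b₁ M² - R e², q)` at the adelic point is not trivial. -/
def Ram {A B b₁ : ℤ} (P : Adelic A B b₁) (R S q : ℤ) : Set (Option Nat.Primes) :=
  {v | match v with
    | none => ¬ Splits (value P.re R S) (q : ℝ)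
    | some p => ¬ Splits (value (P.pa p) R S) (q : ℚ_[(p : ℕ)])}

/-- The Brauer-Manin set is empty: for every adelic point there is a class
`(b₁ M² - A e², q)` or `(b₁ M² - B e², q)` for which the number of the places at which its value is
not trivial is finite and odd, so that the sum of the invariants is not zero. (The number `ncard` of
the elements of an infinite set is `0`.) -/
def BMEmpty (A B b₁ : ℤ) : Prop := ∀ P : Adelic A B b₁, ∃ q : ℤ, q ≠ 0 ∧
  (Odd (Ram P A B q).ncard ∨ Odd (Ram P B A q).ncard)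

/-- The curves such that for all their equations `y² = x (x - A) (x - B)` with integers `A`, `B` and
all squarefree `b₁ ∣ A B` the curve `C_{b₁}` has a rational point or an empty Brauer-Manin set. -/
def Decided : Set (ℤ × ℤ) :=
  {c | ∀ A B : ℤ, IsModel c A B → ∀ b₁ : ℤ, Squarefree b₁ → b₁ ∣ A * B →
    Nonempty (Pt ℚ A B b₁) ∨ BMEmpty A B b₁}

/-- the curves with an equation `y² = x (x - A) (x - B)`, `A`, `B` integers, for which at least `n` of
the curves `C_{b₁}` have adelic points and no rational point -/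
def Violations (n : ℕ) : Set (ℤ × ℤ) :=
  {c | ∃ A B : ℤ, IsModel c A B ∧ n ≤ {b₁ : ℤ | Squarefree b₁ ∧ b₁ ∣ A * B ∧
    Nonempty (Adelic A B b₁) ∧ ¬ Nonempty (Pt ℚ A B b₁)}.ncard}

lemma quar_iff {A B b₁ : ℤ} : Pool.Agent.Q284.FDQ.Quar ℚ A B b₁ ↔ Nonempty (Pt ℚ A B b₁) :=
  ⟨fun ⟨N, M, e, h0, h1⟩ => ⟨⟨N, M, e, h0, h1⟩⟩, fun ⟨P⟩ => ⟨P.N, P.M, P.e, P.ne, P.eq⟩⟩

lemma odd_of {A B b₁ : ℤ} (hb : b₁ ≠ 0) (hd : b₁ ∣ A * B) (P : Adelic A B b₁)
    (h : ∀ Q : Pool.Agent.W313.BMX.AdelicPoint (Pool.Agent.Q284.FDQ.fac A B b₁) b₁,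
      ∃ (k : Fin 2) (q : ℤ), q ≠ 0 ∧
        Odd (Pool.Agent.W313.BMX.ram (Pool.Agent.W313.BMX.values Q k) q).ncard) :
    ∃ q : ℤ, q ≠ 0 ∧ (Odd (Ram P A B q).ncard ∨ Odd (Ram P B A q).ncard) := by
  obtain ⟨Q, hQ⟩ : ∃ Q : Pool.Agent.W313.BMX.AdelicPoint (Pool.Agent.Q284.FDQ.fac A B b₁) b₁,
    Q = ⟨Pool.Agent.Q284.FDQ.toPoint hb hd P.re.N P.re.M P.re.e P.re.ne P.re.eq, fun p =>
      Pool.Agent.Q284.FDQ.toPoint hb hd (P.pa p).N (P.pa p).M (P.pa p).e (P.pa p).ne
        (P.pa p).eq⟩ := ⟨_, rfl⟩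
  obtain ⟨k, q, hq, ho⟩ := h Q
  refine ⟨q, hq, ?_⟩
  have hk : k = 0 ∨ k = 1 := by fin_cases k <;> simp
  rcases hk with rfl | rfl
  · left
    have e : Pool.Agent.W313.BMX.ram (Pool.Agent.W313.BMX.values Q 0) q = Ram P A B q := by
      rw [hQ]
      ext v
      cases v with
      | none =>
        change ¬ Pool.Agent.W313.BMX.Splits (Pool.Agent.W313.BMX.value _ 0) _ ↔ ¬ Splits _ _
        rw [Pool.Agent.Q284.FDQ.value0 hb]
        exact Iff.rfl
      | some p =>
        change ¬ Pool.Agent.W313.BMX.Splits (Pool.Agent.W313.BMX.value _ 0) _ ↔ ¬ Splits _ _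
        rw [Pool.Agent.Q284.FDQ.value0 hb]
        exact Iff.rfl
    rwa [e] at ho
  · right
    have e : Pool.Agent.W313.BMX.ram (Pool.Agent.W313.BMX.values Q 1) q = Ram P B A q := by
      rw [hQ]
      ext v
      cases v with
      | none =>
        change ¬ Pool.Agent.W313.BMX.Splits (Pool.Agent.W313.BMX.value _ 1) _ ↔ ¬ Splits _ _
        rw [Pool.Agent.Q284.FDQ.value1 hb]
        exact Iff.rfl
      | some p =>
        change ¬ Pool.Agent.W313.BMX.Splits (Pool.Agent.W313.BMX.value _ 1) _ ↔ ¬ Splits _ _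
        rw [Pool.Agent.Q284.FDQ.value1 hb]
        exact Iff.rfl
    rwa [e] at ho

lemma mem_of {T : ℕ} {c : ℤ × ℤ} (h : Pool.Agent.Q284.FDQ.PQ (T + 1) c) :
    c ∈ Decided ∩ Violations (2 ^ T) := by
  refine ⟨fun A B hM b₁ hb hd => ?_, ?_⟩
  · obtain ⟨hA, hB, hAB, h4, hc⟩ := h.2.1 A B hM
    have hc4 : (Pool.Agent.W307.SE.Sel A B).ncard ≤ 4 := by
      rw [hc, h.1.2.1]
      norm_num
    rw [← quar_iff]
    by_cases hS : Pool.Agent.Q284.FDQ.Quar ℚ A B b₁
    · exact Or.inl hS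
    · exact Or.inr fun P => odd_of hb.ne_zero hd P
        (Pool.Agent.Q284.FDQ.bm_core hA hB hAB h4 hc4 hb hd hS)
  · obtain ⟨A, B, h1, h2⟩ := Pool.Agent.Q284.FDQ.many_not h
    refine ⟨A, B, h1, h2.trans (le_of_eq ?_)⟩
    congr 1
    ext b₁
    rw [Set.mem_ofPred_eq, Set.mem_ofPred_eq, ← quar_iff]
    constructor
    · rintro ⟨⟨k1, k2, ⟨N, M, e, k3, k4⟩, k5⟩, k6⟩
      choose N' M' e' k7 k8 using fun p : Nat.Primes => k5 (p : ℕ)
      exact ⟨k1, k2, ⟨⟨⟨N, M, e, k3, k4⟩, fun p => ⟨N' p, M' p, e' p, k7 p, k8 p⟩⟩⟩, k6⟩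
    · rintro ⟨k1, k2, ⟨P⟩, k6⟩
      refine ⟨⟨k1, k2, ⟨P.re.N, P.re.M, P.re.e, P.re.ne, P.re.eq⟩, fun p hp => ?_⟩, k6⟩
      exact ⟨(P.pa ⟨p, hp.out⟩).N, (P.pa ⟨p, hp.out⟩).M, (P.pa ⟨p, hp.out⟩).e,
        (P.pa ⟨p, hp.out⟩).ne, (P.pa ⟨p, hp.out⟩).eq⟩

/-- **Theorem.** Order the elliptic curves over `ℚ` with full rational 2-torsion by the naive height
or by the absolute value of the minimal discriminant. For both orderings there are finitely many
curves of size at most `Z`, their number tends to infinity with `Z`, and for every `T` a positive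
proportion of the curves (the lower density is positive) belongs to `Decided` and has at least
`2 ^ T` curves `C_{b₁}` with adelic points and without rational points (and so, by `Decided`, with
empty Brauer-Manin set) for one of its equations `y² = x (x - A) (x - B)`. -/
theorem result : ∀ I : ℤ × ℤ → ℕ → Prop, I = HeightLe ∨ I = DiscLe →
    (∀ Z : ℕ, (Fam I Z).Finite) ∧ Tendsto (fun Z : ℕ => (Fam I Z).ncard) atTop atTop ∧
    ∀ T : ℕ, ∃ δ : ℝ, 0 < δ ∧
      ∀ᶠ Z : ℕ in atTop, δ ≤ proportion I (Decided ∩ Violations (2 ^ T)) Z := by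
  classical
  have h0 : ∀ T : ℕ, ∃ c : ℝ, 0 < c ∧ ∃ H0 : ℕ, ∀ H : ℕ, H0 ≤ H →
      c * ((Pool.Agent.W307.RT.Cv 2 H).card : ℝ) ≤
        (((Pool.Agent.W307.RT.Cv 2 H).filter (Pool.Agent.Q284.FDQ.PQ (T + 1))).card : ℝ) := by
    intro T
    obtain ⟨c, hc, H0, h⟩ := Pool.Agent.Q284.FDQ.curvesPQ (T + 1)
    refine ⟨c, hc, H0, fun H hH => (h H hH).trans
      (Nat.cast_le.2 (card_le_card fun k hk => ?_))⟩
    rw [mem_filter] at hk ⊢
    exact hk
  have hfin : ∀ I : ℤ × ℤ → ℕ → Prop, I = HeightLe ∨ I = DiscLe → ∀ Z : ℕ, (Fam I Z).Finite := by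
    rintro I (rfl | rfl) Z
    · rw [FamH_eq]
      exact finite_toSet _
    · rw [FamD_eq]
      exact finite_toSet _
  intro I hI
  refine ⟨hfin I hI, ?_, fun T => ?_⟩
  · rcases hI with rfl | rfl
    · exact tendstoH
    · exact tendstoD
  · rcases hI with rfl | rfl
    · obtain ⟨c, hc, H0, h⟩ := h0 T
      refine ⟨c, hc, ?_⟩
      filter_upwards [eventually_ge_atTop H0, tendstoH.eventually_ge_atTop 1] with H hH hH1
      unfold proportion
      rw [le_div_iff₀ (by exact_mod_cast hH1)]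
      have e1 : (Fam HeightLe H).ncard = (Pool.Agent.W307.RT.Cv 2 H).card := by
        rw [FamH_eq, Set.ncard_coe_finset]
      rw [e1]
      refine (h H hH).trans (Nat.cast_le.2 ?_)
      rw [← Set.ncard_coe_finset]
      refine Set.ncard_le_ncard (fun k hk => ?_) (Set.Finite.inter_of_left
        (hfin _ (Or.inl rfl) _) _)
      rw [mem_coe, mem_filter] at hk
      refine ⟨?_, mem_of hk.2⟩
      rw [FamH_eq, mem_coe]
      exact hk.1
    · obtain ⟨c, hc, H0, h⟩ := Pool.Agent.Y667.RP.disc_of_height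
        (Pool.Agent.Q284.FDQ.PQ (T + 1)) (h0 T)
      refine ⟨c, hc, ?_⟩
      filter_upwards [eventually_ge_atTop H0, tendstoD.eventually_ge_atTop 1] with H hH hH1
      unfold proportion
      rw [le_div_iff₀ (by exact_mod_cast hH1)]
      have e1 : (Fam DiscLe H).ncard = (Pool.Agent.TH344.DS.Dv H).card := by
        rw [FamD_eq, Set.ncard_coe_finset]
      rw [e1]
      refine (h H hH).trans (Nat.cast_le.2 ?_)
      rw [← Set.ncard_coe_finset]
      refine Set.ncard_le_ncard (fun k hk => ?_) (Set.Finite.inter_of_left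
        (hfin _ (Or.inr rfl) _) _)
      rw [mem_coe, mem_filter] at hk
      refine ⟨?_, mem_of hk.2⟩
      rw [FamD_eq, mem_coe]
      exact hk.1

end Pool.Agent.Results.MP_308fa9_nt.BrauerManinPositiveProportion
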