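import Pool.Agent.Results.MP_308fa9_nt.EmptyBrauerManinSet
import Pool.Agent.Q319.WN.Weak2

/-!
# ALL quadratic twists near the multiples and the dilates of almost every real number have an empty Brauer-Manin set

Let `f k ∈ ℤ[x]` be irreducible over `ℚ`, of even degrees, pairwise non-associated, and let `F k` be their
homogenisations. There is `δ > 0` with the following property. For almost all real numbers `y` of size `N ^ (1 - θ)` and
all `n ≤ N ^ θ`, with at most `C w N ^ θ / (log N) ^ δ` exceptions, the Brauer-Manin set of the curve
`C d : d y² = ∏ k, F k (x, w)` is empty for ALL squarefree `d` with `||d| - n y| ≤ w`. If `∑ w_n / (log v_n) ^ δ` converges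
then for almost every real `α > 0` and all large `n` this is so for ALL squarefree `d` with `||d| - α v_n| ≤ w_n`.

From Mathlib: `Squarefree`; `volume`: the Lebesgue measure; `∀ᵐ α : ℝ`: for almost all real `α`; `∀ᶠ k in atTop`: for all
large `k`. The bound for the number of exceptional twists is from the starting files (`EmptyBrauerManinSet`), as well as the
count of the elements of arbitrary sets of integers in intervals at multiples of real numbers (`Pool.Agent.H438R2.DL`).
The curves, their adelic points and the orthogonality to the classes `(F k, e)`, `e` a nonzero integer, of the Brauer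
group are defined in `Pool.Agent.W313.BMX`; `ScarceAtMultiples` and `ScarceAtDilates` in `Pool.Agent.Q319.WN.Weak`.
-/

set_option autoImplicit false

namespace Pool.Agent.Results.MP_308fa9_nt.TwistsAtRealMultiples

open Polynomial Pool.Agent.W313.BMX Pool.Agent.Q319.WN

/-- `d` is squarefree and some adelic point of the curve `C d` is orthogonal to all the classes `(F k, e)`. -/
def NotObstructed {K : Type} [Fintype K] [DecidableEq K] (f : K → ℤ[X]) (d : ℤ) : Prop :=
  Squarefree d ∧ ∃ P : AdelicPoint f d, Orthogonal P

/-- Let the `f k` be irreducible over `ℚ`, of even degrees, and pairwise non-associated. There is `δ > 0` such that: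
1. (multiples) for `0 < θ < 1` there are `c > 0` and `C` such that for all large `N`, `1 ≤ w ≤ N ^ c` and all real `y` with
   `N ^ (1 - θ) ≤ y ≤ 2 N ^ (1 - θ)` outside a set of measure at most `N ^ (1 - θ - c)`: for all `n ≤ N ^ θ` with at most
   `C w N ^ θ / (log N) ^ δ` exceptions the curves `C d` with squarefree `d`, `||d| - n y| ≤ w`, ALL have an empty
   Brauer-Manin set: each adelic point is obstructed by one of the classes `(F k, e)`;
2. (dilates) for all `v n ≥ 3` and `0 ≤ w n ≤ v n` for which `∑ w n / (log (v n)) ^ δ` converges and almost every real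
   `α > 0`: for all large `n` the same holds for ALL squarefree `d` with `||d| - α v n| ≤ w n`. For example
   `v n = exp (n ^ s)`, `w n = n ^ t` with `s δ > t + 1`. -/
theorem result (K : Type) [Fintype K] [DecidableEq K] (f : K → ℤ[X]) (hf : Admissible f) :
    ∃ δ : ℝ, 0 < δ ∧ ScarceAtMultiples δ (NotObstructed f) ∧ ScarceAtDilates δ (NotObstructed f) := by
  obtain ⟨⟨δ, hδ, C, hC⟩, -⟩ := EmptyBrauerManinSet.result.1 K f hf
  exact ⟨δ, hδ, scarce_both hδ hC⟩

end Pool.Agent.Results.MP_308fa9_nt.TwistsAtRealMultiples
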